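import Mathlib
import Pool.Agent.H526R2.GI.PartLower
import Pool.Agent.H526R2.GI.PartUpper

/-!
# Best-partition nondeterministic communication complexity of graph isomorphism

The `n (n - 1)` adjacency bits of two graphs on `n` vertices are divided between two players: one
sees the bits in `X`, the other one the remaining bits. `RectCover X t` says that the set of all
isomorphic pairs is a union of `t` combinatorial rectangles for this partition, that is, that the
nondeterministic communication complexity is at most `log₂ t`.

The theorem determines the complexity for the best partition into two halves up to `O(n log n)`: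
it is `n² / 4 + O(n log n)`.
-/

namespace Pool.Agent.Results.MP_128e7d_lc.BestPartition

open Pool.Agent.H526R2.GI

theorem result (n : ℕ) :
    (∀ (X : Finset (Var n)) (t : ℕ), RectCover X t →
      2 ^ (X.card * (n * (n - 1) - X.card) / (n * (n - 1))) ≤ 2 ^ 13 * n.factorial ^ 7 * t) ∧
    (∃ X : Finset (Var n), 2 * X.card = n * (n - 1) ∧
      ∃ t ≤ n.factorial * 2 ^ (n * (n - 1) / 4 + n + 1), RectCover X t) := by
  constructor
  · intro X t h
    obtain ⟨π, hπ⟩ := exists_cross X
    rw [card_Pr] at hπ
    exact (Nat.pow_le_pow_right (by norm_num) hπ).trans (cover_lower X h π)
  · obtain ⟨X, h1, h2⟩ := exists_good_partition n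
    exact ⟨X, h1, cover_upper X h2⟩

end Pool.Agent.Results.MP_128e7d_lc.BestPartition
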