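import Pool.Agent.H603GI.Core
import Pool.Agent.H603GI.QQ
import Pool.Agent.H603GI.ContrEt

/-!
# GRAPH ISOMORPHISM is in P on four families of graph classes
-/

namespace Pool.Agent.Results.MP_128e7d_lc.BoundedWidthClasses

open Pool.Agent.H603GI Pool.Agent.H175R2 Pool.Agent.H73R2.Et
open Pool.Agent.Results.MP_563ce7_co.BoundedCliqueWidth (IsQT)

/-- `G` is a chordal bipartite graph without induced `E_t`, or a `(q, q - 2)`-graph, or a connected
graph that cannot be contracted to the gem, or a connected graph that cannot be contracted to the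
complement of `2 P₁ + P₃`. -/
def InClass (t q : ℕ) {V : Type} (G : SimpleGraph V) : Prop :=
  (IsChordalBipartite G ∧ ¬ (E t).IsIndContained G) ∨
  IsQT q (q - 2) G ∨
  (G.Connected ∧ ¬ Contracts G gem) ∨
  (G.Connected ∧ ¬ Contracts G X5)

/-- For all `t ≥ 1` and `q ≥ 8`: one polynomial-time Turing machine decides whether two graphs
(given by adjacency matrices) are isomorphic, whenever the first graph or its complement belongs to
one of the four classes. -/
theorem result (t q : ℕ) (ht : 1 ≤ t) (hq : 8 ≤ q) :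
    GIInPOn (fun _ G => InClass t q G ∨ InClass t q Gᶜ) := by
  obtain ⟨k₁, h₁⟩ := dec_of_et t ht
  obtain ⟨k₂, h₂⟩ := dec_of_qq q hq
  obtain ⟨k₃, h₃⟩ := dec_of_contr gem ((Pool.Agent.H175R2.main gem).2
    (Or.inr (Or.inr (Or.inr (Or.inr (Or.inr (Or.inr (Or.inr (Or.inl ⟨SimpleGraph.Iso.refl⟩)))))))))
  obtain ⟨k₄, h₄⟩ := dec_of_contr X5 ((Pool.Agent.H175R2.main X5).2
    (Or.inr (Or.inr (Or.inr (Or.inr (Or.inr (Or.inr (Or.inr (Or.inr ⟨SimpleGraph.Iso.refl⟩)))))))))
  have key : ∀ (V : Type) [Finite V] (G : SimpleGraph V), InClass t q G →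
      IsEmpty V ∨ Dec (k₁ + k₂ + k₃ + k₄) G.Adj Set.univ := by
    intro V _ G hG
    rcases hG with ⟨a, b⟩ | a | ⟨a, b⟩ | ⟨a, b⟩
    · exact (h₁ V G a b).imp id fun h => h.mono (by omega)
    · exact (h₂ V G a).imp id fun h => h.mono (by omega)
    · exact (h₃ V G a b).imp id fun h => h.mono (by omega)
    · exact (h₄ V G a b).imp id fun h => h.mono (by omega)
  refine giInPOn_of_dec (k := k₁ + k₂ + k₃ + k₄) fun V _ G hG => ?_
  rcases hG with h | h
  · exact key V G h
  · refine (key V Gᶜ h).imp id fun hd => ?_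
    have h1 := hd.compl
    rwa [compl_compl] at h1

end Pool.Agent.Results.MP_128e7d_lc.BoundedWidthClasses
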