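import Mathlib
import Pool.Agent.H526R2.GI.DnnfUpper

/-!
# Graph isomorphism and circuits in decomposable negation normal form

`IsIso z` is the graph isomorphism function for graphs on `n` labelled vertices: the input
`z : Var n → Bool` consists of the `n(n-1)` adjacency bits of the two graphs.

A `Circuit V s` is a Boolean circuit with `s` gates (literals, constants, fan-in two AND and OR
gates); it is `Decomposable` (a DNNF) if the two inputs of every AND gate depend on disjoint sets
of variables.

The theorem: for graph isomorphism, trying all permutations is optimal among these circuits, up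
to the constant in the exponent: the minimal size is `n ^ Θ(n)`.
-/

namespace Pool.Agent.Results.MP_128e7d_lc.DNNFSize

open Pool.Agent.H526R2.GI

theorem exists_large : ∃ n₀ : ℕ, ∀ n ≥ n₀, n.factorial < 2 ^ (n ^ 2 / 100000) := by
  have h := tendsto_pow_const_div_const_pow_of_one_lt 200000 (one_lt_two (α := ℝ))
  have h1 := (h.eventually (gt_mem_nhds (show (0 : ℝ) < 1 by norm_num))).and
    (Filter.eventually_ge_atTop 1000)
  obtain ⟨n₀, hn₀⟩ := Filter.eventually_atTop.1 h1
  refine ⟨n₀, fun n hn => ?_⟩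
  obtain ⟨h2, h3⟩ := hn₀ n hn
  have h4 : n ^ 200000 < 2 ^ n := by
    rw [div_lt_one (by positivity)] at h2
    exact_mod_cast h2
  set q := n ^ 2 / 100000 with hq
  have h5 : (n ^ n) ^ 200000 < (2 ^ q) ^ 200000 := by
    calc (n ^ n) ^ 200000 = (n ^ 200000) ^ n := by rw [← pow_mul, ← pow_mul, mul_comm]
      _ < (2 ^ n) ^ n := Nat.pow_lt_pow_left h4 (by omega)
      _ = 2 ^ (n ^ 2) := by rw [← pow_mul, pow_two]
      _ ≤ 2 ^ (q * 200000) := by
          apply Nat.pow_le_pow_right (by norm_num)
          have h6 : 1000 ^ 2 ≤ n ^ 2 := Nat.pow_le_pow_left h3 2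
          omega
      _ = (2 ^ q) ^ 200000 := by rw [← pow_mul]
  exact (Nat.factorial_le_pow n).trans_lt (lt_of_pow_lt_pow_left₀ _ (by positivity) h5)

/-- The size of DNNF circuits for graph isomorphism on `n` vertices is `n ^ Θ(n)`: at least
`(n / 20)! / 2` for all large `n`, and at most `4 n² n!`. -/
theorem result :
    (∃ n₀ : ℕ, ∀ n ≥ n₀, ∀ (s : ℕ) (C : Circuit (Var n) s), C.Decomposable →
      (∀ z, C.eval z = true ↔ IsIso z) → (n / 20).factorial ≤ 2 * s) ∧
    (∀ n ≥ 1, ∃ s ≤ 4 * n ^ 2 * n.factorial, ∃ C : Circuit (Var n) s, C.Decomposable ∧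
      ∀ z, C.eval z = true ↔ IsIso z) := by
  refine ⟨?_, fun n hn => dnnf_upper hn⟩
  obtain ⟨n₀, hn₀⟩ := exists_large
  refine ⟨max n₀ 1000, fun n hn s C hC hcomp => ?_⟩
  have h1 := hn₀ n (le_of_max_le_left hn)
  have h2 : 1000 ≤ n := le_of_max_le_right hn
  refine dnnf_bound (q := n ^ 2 / 100000) C hC hcomp h2 h1 (by omega) (by omega) ?_
  exact (Nat.factorial_le (by omega)).trans h1.le

end Pool.Agent.Results.MP_128e7d_lc.DNNFSize
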