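import Pool.Agent.H550R2.Cl.RGI

set_option autoImplicit false

/-! Robust graph isomorphism and random semidefinite programs that are symmetric under the Klein
four-groups of many disjoint quadruples of vertices of the first graph. -/

namespace Pool.Agent.Results.MP_128e7d_lc.RobustIsoSDP

open Pool.Agent.H550R2.Lift Pool.Agent.H550R2.Cl
open Pool.Agent.H550R2.Neg (RSDP)

/-- Random semidefinite programs that are symmetric under the translations of `r` disjoint
quadruples of vertices of the first graph and tell pairs of isomorphic graphs from pairs of graphs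
for which every bijection makes `(1/2 - ε) r` errors, for graphs with `O(r)` edges, have exponential
order. Conversely a program for such a task can be made symmetric on any `r` quadruples at order
`4 ^ r N`. -/
theorem result :
    (∀ ε : ℝ, 0 < ε → ∃ C : ℕ, 0 < C ∧ ∀ r : ℕ, C ≤ r →
      ∀ (W : Type) [Finite W] (blk : Fin r × (Fin 2 → ZMod 2) ↪ W) (R : RSDP (Sym2 (W ⊕ W))),
      TransSym R (fstBl blk) → SepGI R (C * r) ((1 / 2 - ε) * r) →
      ∀ N : ℕ, (∀ ω, Fintype.card (R.D ω) ≤ N) → 2 ^ (r / C) ≤ N) ∧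
    (∀ (r : ℕ) (W : Type) (blk : Fin r × (Fin 2 → ZMod 2) ↪ W) (M K : ℝ) (D : Type)
      [Fintype D] [DecidableEq D] (P : SDP (Sym2 (W ⊕ W)) D), DecGI P M K →
      ∃ (D' : Type) (_ : Fintype D') (_ : DecidableEq D') (P' : SDP (Sym2 (W ⊕ W)) D'),
        Fintype.card D' = 4 ^ r * Fintype.card D ∧
        (∀ γ, ∃ O, P'.IsAut (edPerm (tp (fstBl blk) γ)) O) ∧ DecGI P' M K) :=
  ⟨gi_lower, fun _ _ blk M K D _ _ P hP => gi_conv blk M K D P hP⟩

end Pool.Agent.Results.MP_128e7d_lc.RobustIsoSDP
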