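import Mathlib
import Pool.Agent.H526R2.GI.Rigid

/-!
# Covering the isomorphic pairs by easy sets

`SchaeferCover n t`: the set of all pairs of isomorphic graphs on `n` vertices (given by their
adjacency bits) is a union of `t` sets, each of which is closed under one of the four Boolean
operations majority, `x + y + z`, AND, OR, that is, each of which is the solution set of a 2-CNF
formula, of a system of linear equations modulo two, of a Horn formula or of a dual Horn formula
of arbitrary size.

The least possible `t` is `(1 - o(1)) n!`: the trivial covering (one set for each bijection) is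
asymptotically optimal.
-/

namespace Pool.Agent.Results.MP_128e7d_lc.SchaeferCover

open Pool.Agent.H526R2.GI

/-- The set of isomorphic pairs is a union of `t` sets closed under majority, `x + y + z`, AND or
OR. -/
def SchaeferCover (n t : ℕ) : Prop :=
  ∃ S : Fin t → Set (Var n → Bool),
    (∀ i, MajClosed (S i) ∨ XorClosed (S i) ∨ AndClosed (S i) ∨ OrClosed (S i)) ∧
    ∀ z, IsIso z ↔ ∃ i, z ∈ S i

theorem result :
    (∀ n : ℕ, SchaeferCover n n.factorial) ∧
    (∀ ε : ℝ, 0 < ε → ∃ n₀ : ℕ, ∀ n ≥ n₀, ∀ t : ℕ, SchaeferCover n t →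
      (1 - ε) * n.factorial ≤ t) := by
  constructor
  · intro n
    have hc : Fintype.card (Equiv.Perm (Fin n)) = n.factorial := by
      rw [Fintype.card_perm, Fintype.card_fin]
    let f : Fin n.factorial ≃ Equiv.Perm (Fin n) := (Fintype.equivFinOfCardEq hc).symm
    refine ⟨fun i => {z | ∀ e, z (Sum.inr (act (f i) e)) = z (Sum.inl e)}, ?_, ?_⟩
    · intro i
      left
      intro x hx y hy z hz e
      show maj _ _ _ = maj _ _ _
      rw [hx e, hy e, hz e]
    · intro z
      rw [isIso_iff]
      constructor
      · rintro ⟨π, hπ⟩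
        exact ⟨f.symm π, by simpa using hπ⟩
      · rintro ⟨i, hi⟩
        exact ⟨f i, hi⟩
  · intro ε hε
    obtain ⟨n₀, h₀⟩ := eventually_small ε hε
    refine ⟨n₀, fun n hn t ht => ?_⟩
    classical
    obtain ⟨S, hS, hcov⟩ := ht
    have h1 : (isoPairs n).card ≤ t * 2 ^ Fintype.card (Pr n) := by
      have hsub : isoPairs n ⊆ Finset.univ.biUnion (fun i => (S i).toFinset) := by
        intro z hz
        simp only [isoPairs, Finset.mem_filter, Finset.mem_univ, true_and] at hz
        obtain ⟨i, hi⟩ := (hcov z).1 hz
        simp only [Finset.mem_biUnion, Finset.mem_univ, true_and, Set.mem_toFinset]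
        exact ⟨i, hi⟩
      calc (isoPairs n).card ≤ _ := Finset.card_le_card hsub
        _ ≤ ∑ i : Fin t, ((S i).toFinset).card := Finset.card_biUnion_le
        _ ≤ ∑ i : Fin t, 2 ^ Fintype.card (Pr n) := by
            apply Finset.sum_le_sum
            intro i _
            have := card_le_of_closed (S i) (fun z hz => (hcov z).2 ⟨i, hz⟩) (hS i)
            rwa [Set.ncard_eq_toFinset_card'] at this
        _ = t * 2 ^ Fintype.card (Pr n) := by
            rw [Finset.sum_const, Finset.card_univ, Fintype.card_fin, smul_eq_mul]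
    have h2 := card_isoPairs_ge n
    have h3 := card_rig_ge n
    have h4 := h₀ n hn
    have h5 : ((rig n).card : ℝ) * n.factorial ≤ t * 2 ^ Fintype.card (Pr n) := by
      exact_mod_cast h2.trans h1
    have h6 : (2 : ℝ) ^ Fintype.card (Pr n) * (1 - ε) ≤ (rig n).card := by
      refine le_trans ?_ h3
      apply mul_le_mul_of_nonneg_left _ (by positivity)
      linarith
    have h7 : (2 : ℝ) ^ Fintype.card (Pr n) * (1 - ε) * n.factorial ≤ t * 2 ^ Fintype.card (Pr n) :=
      (mul_le_mul_of_nonneg_right h6 (by positivity)).trans h5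
    have h8 : (0 : ℝ) < 2 ^ Fintype.card (Pr n) := by positivity
    have h9 : (2 : ℝ) ^ Fintype.card (Pr n) * ((1 - ε) * n.factorial) ≤
        2 ^ Fintype.card (Pr n) * t := by nlinarith
    exact le_of_mul_le_mul_left h9 h8

end Pool.Agent.Results.MP_128e7d_lc.SchaeferCover
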